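import Pool.Agent.Q76.IS.Main

set_option autoImplicit false

/-!
# The boundary spectrum of the inner factor of the derivative

Let `θ` be a nonconstant inner function whose derivative belongs to the Nevanlinna class, and let
`J` be the inner factor of the derivative. If `J` continues holomorphically across a point of the
unit circle then so does `θ`. Hence the boundary spectrum of `θ` is contained in that of `J`; as the
opposite inclusion is known, the two spectra are always equal.

The proof. First, `‖J z‖ (1 - ‖θ z‖ ^ 2) ≤ ‖deriv θ z‖ (1 - ‖z‖ ^ 2)` on the disc: the boundary
values of the outer factor dominate the angular derivative, to which the Schwarz-Pick inequality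
applies, and logarithms are integrated against the Poisson kernel. If `J` continues across a point
then its modulus is close to one near the point, so the hyperbolic derivative of `θ` is close to
one there. A three point inequality for such maps shows that `1 / (1 - ‖θ‖ ^ 2)` grows along the
radii near the point, uniformly. So the modulus of `θ` tends to one, and a reflection argument
(with primitives, to avoid continuity up to the circle) continues `θ` across the point.
-/

open Complex Metric Set

namespace Pool.Agent.Results.MP_e685ae_an.BoundarySpectrum

open Pool.Agent.Q76.IS

theorem result (θ : ℂ → ℂ) (hθ : IsInner θ)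
    (hnc : ¬ ∃ c : ℂ, ∀ z ∈ ball (0 : ℂ) 1, θ z = c) (_hN : Nevanlinna (deriv θ))
    (J : ℂ → ℂ) (hJ : IsInnerFactor (deriv θ) J) :
    sigma θ ⊆ sigma J := by
  obtain ⟨hJ1, S, F, hS, hS0, hF, hfac, -⟩ := hJ
  exact main_thm hθ hnc hJ1 hS hS0 hF hfac

end Pool.Agent.Results.MP_e685ae_an.BoundarySpectrum
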